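import Mathlib
import Pool.Agent.Q14.Strand
import Pool.Agent.Q14.EdgeSq

set_option autoImplicit false

/-!
Squares of edge ideals of cones have field-dependent Betti numbers if the base graph has.

Write `S' = k[x_1, …, x_n]`, `y = x_{n+1}` and `m = (x_1, …, x_n)`. The multidegrees `(b, 2)` of `J^2`
see the quotient `m^2/mI`: a set `T` of variables not containing `y` gives a monomial of `J^2` iff
`x^(b-T) ∈ m^2`, and a set `T ∪ y` iff `x^(b-T) ∈ mI`. From a `p`-torsion class of the strand of `I`
in degree `b`, represented by a cycle whose coefficients have degree at least `4`, one obtains a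
`p`-torsion class of the strand of `J^2`. If the coefficients have degree `3` there is no torsion,
because a function on the vertices that is constant modulo `p` on the components of a graph lifts to
a function that is constant on them.
-/

namespace Pool.Agent.Results.MP_01886a_al.ConeSquare

open MvPolynomial Finset Pool.Agent.H677R3.EdgeReg Q14.Strand Q14.Mono
open Q14.EdgeV (edgeIdeal isMon_edgeIdeal monomial_mem_edgeIdeal TwoEdges monomial_mem_sq)

variable {n : ℕ}

/-! ### Definitions of the problem -/

/-- The cone over the graph `G`: the new vertex `Fin.last n` is joined to all vertices of `G`. -/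
def cone (G : SimpleGraph (Fin n)) : SimpleGraph (Fin (n + 1)) where
  Adj u v := (∃ a b : Fin n, u = a.castSucc ∧ v = b.castSucc ∧ G.Adj a b) ∨
    (u = Fin.last n ∧ v ≠ Fin.last n) ∨ (v = Fin.last n ∧ u ≠ Fin.last n)
  symm := ⟨by
    rintro u v (⟨a, b, h1, h2, h3⟩ | h | h)
    · exact Or.inl ⟨b, a, h2, h1, h3.symm⟩
    · exact Or.inr (Or.inr h)
    · exact Or.inr (Or.inl h)⟩
  loopless := ⟨by
    rintro u (⟨a, b, h1, h2, h3⟩ | h | h)
    · rw [h1] at h2
      have h4 := Fin.castSucc_injective n h2
      rw [h4] at h3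
      exact h3.ne rfl
    · exact h.2 h.1
    · exact h.2 h.1⟩

/-! ### Exponents -/

/-- Exponents of the edge ideal. -/
def P1 (G : SimpleGraph (Fin n)) (u : Fin n → ℕ) : Prop := ∃ a b, G.Adj a b ∧ u a ≠ 0 ∧ u b ≠ 0

/-- Exponents of the square of an edge ideal. -/
def P2 (G : SimpleGraph (Fin n)) (u : Fin n → ℕ) : Prop :=
  ∃ a b c d, G.Adj a b ∧ G.Adj c d ∧ ∀ x, (if a = x then 1 else 0) + (if b = x then 1 else 0) +
    (if c = x then 1 else 0) + (if d = x then 1 else 0) ≤ u x

lemma mem_edge_iff (K : Type*) [Field K] (G : SimpleGraph (Fin n)) (p : MvPolynomial (Fin n) K) :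
    p ∈ edgeIdeal K G ↔ ∀ c ∈ p.support, P1 G ⇑c := by
  rw [(isMon_edgeIdeal G).mem_iff]
  exact forall₂_congr fun c _ => monomial_mem_edgeIdeal

lemma mem_sq_iff (K : Type*) [Field K] (G : SimpleGraph (Fin n)) (p : MvPolynomial (Fin n) K) :
    p ∈ edgeIdeal K G ^ 2 ↔ ∀ c ∈ p.support, P2 G ⇑c := by
  rw [((isMon_edgeIdeal G).pow 2).mem_iff]
  refine forall₂_congr fun c _ => ?_
  rw [monomial_mem_sq]
  unfold TwoEdges P2
  refine exists_congr fun a => exists_congr fun b => exists_congr fun c' => exists_congr fun d =>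
    and_congr_right fun _ => and_congr_right fun _ => ?_
  rw [Finsupp.le_def]
  refine forall_congr' fun x => ?_
  simp only [Finsupp.add_apply, Finsupp.single_apply]

lemma P1_mono (G : SimpleGraph (Fin n)) : ∀ u v : Fin n →₀ ℕ, u ≤ v → P1 G ⇑u → P1 G ⇑v := by
  rintro u v h ⟨a, b, hab, ha, hb⟩
  have h1 := h a
  have h2 := h b
  exact ⟨a, b, hab, by omega, by omega⟩

lemma P2_mono (G : SimpleGraph (Fin n)) : ∀ u v : Fin n →₀ ℕ, u ≤ v → P2 G ⇑u → P2 G ⇑v := by
  rintro u v h ⟨a, b, c, d, hab, hcd, hx⟩
  exact ⟨a, b, c, d, hab, hcd, fun x => (hx x).trans (h x)⟩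

/-! ### Chains on `Fin (n+1)` as pairs of chains on `Fin n` -/

/-- The trace of a set on the old vertices. -/
def pre (T : Finset (Fin (n + 1))) : Finset (Fin n) := univ.filter fun i => i.castSucc ∈ T

lemma mem_pre {T : Finset (Fin (n + 1))} {i : Fin n} : i ∈ pre T ↔ i.castSucc ∈ T := by
  simp [pre]

/-- The set of old vertices. -/
def up (S : Finset (Fin n)) : Finset (Fin (n + 1)) := S.map Fin.castSuccEmb

lemma mem_up {S : Finset (Fin n)} {i : Fin n} : i.castSucc ∈ up S ↔ i ∈ S := by
  simp [up]

lemma last_notMem_up (S : Finset (Fin n)) : Fin.last n ∉ up S := by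
  simp [up, Fin.castSucc_ne_last]

lemma pre_up (S : Finset (Fin n)) : pre (up S) = S := by
  ext i
  rw [mem_pre, mem_up]

lemma pre_insert_last (T : Finset (Fin (n + 1))) : pre (insert (Fin.last n) T) = pre T := by
  ext i
  rw [mem_pre, mem_pre, Finset.mem_insert]
  simp [Fin.castSucc_ne_last]

lemma pre_insert (T : Finset (Fin (n + 1))) (i : Fin n) :
    pre (insert i.castSucc T) = insert i (pre T) := by
  ext j
  rw [mem_pre, Finset.mem_insert, Finset.mem_insert, mem_pre]
  simp

lemma up_pre {T : Finset (Fin (n + 1))} (h : Fin.last n ∉ T) : up (pre T) = T := by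
  ext x
  refine Fin.lastCases ?_ (fun i => ?_) x
  · exact ⟨fun h1 => absurd h1 (last_notMem_up _), fun h1 => absurd h1 h⟩
  · rw [mem_up, mem_pre]

lemma card_pre {T : Finset (Fin (n + 1))} (h : Fin.last n ∉ T) : (pre T).card = T.card := by
  conv_rhs => rw [← up_pre h]
  rw [up, Finset.card_map]

lemma card_pre' {T : Finset (Fin (n + 1))} (h : Fin.last n ∈ T) : (pre T).card + 1 = T.card := by
  have h1 : T = insert (Fin.last n) (T.erase (Fin.last n)) := (Finset.insert_erase h).symm
  conv_lhs => rw [h1]
  rw [pre_insert_last, card_pre (Finset.notMem_erase _ _), Finset.card_erase_add_one h]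

variable {R : Type*} [CommRing R]

/-- The chain with the given parts. -/
def pair (A B : Finset (Fin n) → R) (T : Finset (Fin (n + 1))) : R :=
  if Fin.last n ∈ T then B (pre T) else A (pre T)

lemma sg_castSucc (i : Fin n) (T : Finset (Fin (n + 1))) :
    sg R i.castSucc T = sg R i (pre T) := by
  unfold sg
  congr 1
  refine Finset.card_nbij' (fun x => if h : x = Fin.last n then i else x.castPred h)
    Fin.castSucc ?_ ?_ ?_ ?_
  · intro x hx
    rw [Finset.mem_coe, Finset.mem_filter] at hx
    have h1 : x ≠ Fin.last n := fun h => by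
      rw [h] at hx
      exact absurd hx.2 (not_lt.mpr (Fin.le_last _))
    rw [Finset.mem_coe, Finset.mem_filter, mem_pre]
    simp only [dif_neg h1]
    rw [Fin.castSucc_castPred]
    exact ⟨hx.1, by
      rw [← Fin.castSucc_lt_castSucc_iff, Fin.castSucc_castPred]
      exact hx.2⟩
  · intro x hx
    rw [Finset.mem_coe, Finset.mem_filter, mem_pre] at hx
    rw [Finset.mem_coe, Finset.mem_filter]
    exact ⟨hx.1, Fin.castSucc_lt_castSucc_iff.mpr hx.2⟩
  · intro x hx
    rw [Finset.mem_coe, Finset.mem_filter] at hx
    have h1 : x ≠ Fin.last n := fun h => by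
      rw [h] at hx
      exact absurd hx.2 (not_lt.mpr (Fin.le_last _))
    simp only [dif_neg h1, Fin.castSucc_castPred]
  · intro x _
    simp only [dif_neg (Fin.castSucc_ne_last x), Fin.castPred_castSucc]

lemma sg_last {T : Finset (Fin (n + 1))} (h : Fin.last n ∉ T) :
    sg R (Fin.last n) T = (-1) ^ (pre T).card := by
  unfold sg
  rw [card_pre h, Finset.filter_true_of_mem]
  intro x hx
  exact lt_of_le_of_ne (Fin.le_last _) (fun h' => h (h' ▸ hx))

/-- The differential of a pair. -/
lemma cd_pair (A B : Finset (Fin n) → R) (T : Finset (Fin (n + 1))) :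
    cd (pair A B) T = if Fin.last n ∈ T then cd B (pre T) else
      cd A (pre T) + (-1) ^ (pre T).card * B (pre T) := by
  have h1 : ∀ {N : ℕ} (U : Finset (Fin N)) (G : Fin N → R),
      ∑ j ∈ Uᶜ, G j = ∑ j, if j ∈ U then 0 else G j := by
    intro N U G
    rw [← Finset.sum_subset (Finset.subset_univ Uᶜ)]
    · refine Finset.sum_congr rfl fun j hj => ?_
      rw [if_neg (Finset.mem_compl.mp hj)]
    · intro x _ hx
      rw [if_pos (by simpa using hx)]
  unfold cd
  rw [h1, h1, h1, Fin.sum_univ_castSucc]
  by_cases hT : Fin.last n ∈ T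
  · rw [if_pos hT, if_pos hT, add_zero]
    refine Finset.sum_congr rfl fun j _ => ?_
    by_cases hj : j ∈ pre T
    · rw [if_pos hj, if_pos (mem_pre.mp hj)]
    · rw [if_neg hj, if_neg (fun h => hj (mem_pre.mpr h)), sg_castSucc, pair,
        if_pos (Finset.mem_insert_of_mem hT), pre_insert]
  · rw [if_neg hT, if_neg hT, sg_last hT, pair, if_pos (Finset.mem_insert_self _ _),
      pre_insert_last]
    congr 1
    refine Finset.sum_congr rfl fun j _ => ?_
    by_cases hj : j ∈ pre T
    · rw [if_pos hj, if_pos (mem_pre.mp hj)]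
    · rw [if_neg hj, if_neg (fun h => hj (mem_pre.mpr h)), sg_castSucc, pair,
        if_neg, pre_insert]
      rw [Finset.mem_insert, not_or]
      exact ⟨fun h => Fin.castSucc_ne_last j h.symm, hT⟩

/-! ### The strands of `J^2` in the multidegrees `(b, 2)` -/

/-- The multidegree `(b, 2)`. -/
noncomputable def dbl (b : Fin n →₀ ℕ) : Fin (n + 1) →₀ ℕ :=
  Finsupp.equivFunOnFinite.symm (Fin.snoc (α := fun _ => ℕ) (fun i => b i) 2)

lemma dbl_castSucc (b : Fin n →₀ ℕ) (i : Fin n) : dbl b i.castSucc = b i := by
  simp [dbl]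

lemma dbl_last (b : Fin n →₀ ℕ) : dbl b (Fin.last n) = 2 := by
  simp [dbl]

lemma exists_le_single (c : Fin n → ℕ) (f : Fin n → ℕ) (h1 : ∀ x, f x ≤ c x)
    (h2 : ∑ x, f x < ∑ x, c x) : ∃ l, ∀ x, f x + (if l = x then 1 else 0) ≤ c x := by
  obtain ⟨l, -, hl⟩ := Finset.exists_lt_of_sum_lt h2
  refine ⟨l, fun x => ?_⟩
  have h3 := h1 x
  split_ifs with h
  · rw [← h]
    omega
  · omega

lemma sum_four (a b c d : Fin (n + 1)) :
    (∑ i : Fin n, ((if a = i.castSucc then 1 else 0) + (if b = i.castSucc then 1 else 0) +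
      (if c = i.castSucc then 1 else 0) + (if d = i.castSucc then 1 else 0))) +
      ((if a = Fin.last n then 1 else 0) + (if b = Fin.last n then 1 else 0) +
      (if c = Fin.last n then 1 else 0) + (if d = Fin.last n then 1 else 0)) = 4 := by
  have h := Fin.sum_univ_castSucc (fun x : Fin (n + 1) => (if a = x then 1 else 0) +
    (if b = x then 1 else 0) + (if c = x then 1 else 0) + (if d = x then 1 else 0))
  rw [← h]
  simp [Finset.sum_add_distrib]

lemma adj_castSucc {G : SimpleGraph (Fin n)} {a b : Fin n} :
    (cone G).Adj a.castSucc b.castSucc ↔ G.Adj a b := by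
  constructor
  · rintro (⟨a', b', h1, h2, h3⟩ | h | h)
    · rw [Fin.castSucc_injective n h1, Fin.castSucc_injective n h2]
      exact h3
    · exact absurd h.1 (Fin.castSucc_ne_last a)
    · exact absurd h.1 (Fin.castSucc_ne_last b)
  · intro h
    exact Or.inl ⟨a, b, rfl, rfl, h⟩

lemma adj_last {G : SimpleGraph (Fin n)} (a : Fin n) : (cone G).Adj a.castSucc (Fin.last n) :=
  Or.inr (Or.inr ⟨rfl, Fin.castSucc_ne_last a⟩)

lemma P2_two {G : SimpleGraph (Fin n)} {u : Fin (n + 1) → ℕ} (hu : u (Fin.last n) = 2) :
    P2 (cone G) u ↔ 2 ≤ ∑ i : Fin n, u i.castSucc := by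
  constructor
  · rintro ⟨a, b, c, d, hab, hcd, hx⟩
    have h1 := sum_four a b c d
    have h2 := hx (Fin.last n)
    rw [hu] at h2
    have h3 := Finset.sum_le_sum (fun (i : Fin n) (_ : i ∈ Finset.univ) => hx i.castSucc)
    omega
  · intro h
    obtain ⟨l1, h1⟩ := exists_le_single (fun i => u i.castSucc) (fun _ => 0)
      (fun _ => Nat.zero_le _) (by
        rw [Finset.sum_const_zero]
        omega)
    obtain ⟨l2, h2⟩ := exists_le_single (fun i => u i.castSucc)
      (fun x => 0 + if l1 = x then 1 else 0) h1 (by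
        simp only [zero_add, Finset.sum_ite_eq, Finset.mem_univ, if_true]
        omega)
    refine ⟨l1.castSucc, Fin.last n, l2.castSucc, Fin.last n, adj_last l1, adj_last l2, ?_⟩
    intro x
    refine Fin.lastCases ?_ (fun i => ?_) x
    · rw [hu, if_neg (Fin.castSucc_ne_last l1), if_neg (Fin.castSucc_ne_last l2), if_pos rfl]
    · have h3 := h2 i
      rw [if_neg (fun h : Fin.last n = i.castSucc => Fin.castSucc_ne_last i h.symm)]
      simp only [Fin.castSucc_inj]
      omega

lemma P2_one {G : SimpleGraph (Fin n)} {u : Fin (n + 1) → ℕ} (hu : u (Fin.last n) = 1) :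
    P2 (cone G) u ↔ P1 G (fun i => u i.castSucc) ∧ 3 ≤ ∑ i : Fin n, u i.castSucc := by
  constructor
  · rintro ⟨a, b, c, d, hab, hcd, hx⟩
    have h1 := sum_four a b c d
    have h2 := hx (Fin.last n)
    rw [hu] at h2
    have h3 := Finset.sum_le_sum (fun (i : Fin n) (_ : i ∈ Finset.univ) => hx i.castSucc)
    refine ⟨?_, by omega⟩
    have key : ∀ a b : Fin (n + 1), (cone G).Adj a b → a ≠ Fin.last n → b ≠ Fin.last n →
        u a ≠ 0 → u b ≠ 0 → P1 G (fun i => u i.castSucc) := by
      intro a b hab ha hb hua hub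
      rcases hab with ⟨a', b', h1, h2, h3⟩ | h | h
      · subst h1
        subst h2
        exact ⟨a', b', h3, hua, hub⟩
      · exact absurd h.1 ha
      · exact absurd h.1 hb
    by_cases hl : a ≠ Fin.last n ∧ b ≠ Fin.last n
    · refine key a b hab hl.1 hl.2 ?_ ?_
      · have h4 := hx a
        rw [if_pos rfl] at h4
        omega
      · have h4 := hx b
        rw [if_pos rfl] at h4
        omega
    · have hl1 : (if a = Fin.last n then 1 else 0) + (if b = Fin.last n then 1 else 0) ≥ 1 := by
        rw [not_and_or, not_not, not_not] at hl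
        rcases hl with h | h
        · rw [if_pos h]
          omega
        · rw [if_pos h]
          omega
      have hc : c ≠ Fin.last n := by
        intro h
        rw [if_pos h] at h2
        omega
      have hd : d ≠ Fin.last n := by
        intro h
        rw [if_pos h] at h2
        omega
      refine key c d hcd hc hd ?_ ?_
      · have h4 := hx c
        rw [if_pos (rfl : c = c)] at h4
        omega
      · have h4 := hx d
        rw [if_pos (rfl : d = d)] at h4
        omega
  · rintro ⟨⟨a, b, hab, ha, hb⟩, h⟩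
    change u a.castSucc ≠ 0 at ha
    change u b.castSucc ≠ 0 at hb
    obtain ⟨l, hl⟩ := exists_le_single (fun i => u i.castSucc)
      (fun x => (if a = x then 1 else 0) + (if b = x then 1 else 0)) (by
        intro x
        have := hab.ne
        by_cases h1 : a = x
        · have h2 : b ≠ x := fun h2 => this (h1.trans h2.symm)
          simp only [if_pos h1, if_neg h2]
          rw [← h1]
          omega
        · by_cases h2 : b = x
          · simp only [if_neg h1, if_pos h2]
            rw [← h2]
            omega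
          · simp only [if_neg h1, if_neg h2]
            omega) (by
        simp only [Finset.sum_add_distrib, Finset.sum_ite_eq, Finset.mem_univ, if_true]
        omega)
    refine ⟨a.castSucc, b.castSucc, l.castSucc, Fin.last n, adj_castSucc.mpr hab, adj_last l, ?_⟩
    intro x
    refine Fin.lastCases ?_ (fun i => ?_) x
    · rw [hu, if_neg (Fin.castSucc_ne_last a), if_neg (Fin.castSucc_ne_last b),
        if_neg (Fin.castSucc_ne_last l), if_pos rfl]
    · have h3 := hl i
      rw [if_neg (fun h : Fin.last n = i.castSucc => Fin.castSucc_ne_last i h.symm)]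
      simp only [Fin.castSucc_inj]
      omega

lemma ind_le_dbl {b : Fin n →₀ ℕ} {T : Finset (Fin (n + 1))} :
    ind T ≤ dbl b ↔ ind (pre T) ≤ b := by
  rw [Finsupp.le_def, Finsupp.le_def]
  constructor
  · intro h i
    have h1 := h i.castSucc
    rw [ind_apply, dbl_castSucc] at h1
    rw [ind_apply]
    simp only [mem_pre]
    exact h1
  · intro h x
    refine Fin.lastCases ?_ (fun i => ?_) x
    · rw [ind_apply, dbl_last]
      split_ifs <;> omega
    · have h1 := h i
      rw [ind_apply] at h1
      rw [ind_apply, dbl_castSucc]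
      simp only [mem_pre] at h1
      exact h1

lemma sub_castSucc (b : Fin n →₀ ℕ) (T : Finset (Fin (n + 1))) (i : Fin n) :
    (dbl b - ind T) i.castSucc = (b - ind (pre T)) i := by
  rw [Finsupp.tsub_apply, Finsupp.tsub_apply, dbl_castSucc, ind_apply, ind_apply]
  simp only [mem_pre]

lemma KK_notMem {G : SimpleGraph (Fin n)} {b : Fin n →₀ ℕ} {T : Finset (Fin (n + 1))}
    (hT : Fin.last n ∉ T) :
    KK (P2 (cone G)) (dbl b) T ↔ ind (pre T) ≤ b ∧ 2 ≤ ∑ i, (b - ind (pre T)) i := by
  unfold KK
  rw [ind_le_dbl]
  refine and_congr_right fun _ => ?_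
  rw [P2_two]
  · simp only [sub_castSucc]
  · rw [Finsupp.tsub_apply, dbl_last, ind_apply, if_neg hT]

lemma KK_mem {G : SimpleGraph (Fin n)} {b : Fin n →₀ ℕ} {T : Finset (Fin (n + 1))}
    (hT : Fin.last n ∈ T) :
    KK (P2 (cone G)) (dbl b) T ↔ KK (P1 G) b (pre T) ∧ 3 ≤ ∑ i, (b - ind (pre T)) i := by
  unfold KK
  rw [ind_le_dbl, and_assoc]
  refine and_congr_right fun _ => ?_
  rw [P2_one]
  · simp only [sub_castSucc]
  · rw [Finsupp.tsub_apply, dbl_last, ind_apply, if_pos hT]

/-! ### Cycles with coefficients of degree three -/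

lemma dvd_of_dvd_sg_mul {p : ℤ} {j : Fin n} {T : Finset (Fin n)} {a : ℤ}
    (h : p ∣ sg ℤ j T * a) : p ∣ a := by
  have h1 := h.mul_left (sg ℤ j T)
  rwa [← mul_assoc, sg_mul_self, one_mul] at h1

/-- The set of variables of `b` not in `T`. -/
def miss (b : Fin n →₀ ℕ) (T : Finset (Fin n)) : Finset (Fin n) :=
  univ.filter fun x => x ∉ T ∧ b x ≠ 0

lemma mem_miss {b : Fin n →₀ ℕ} {T : Finset (Fin n)} {x : Fin n} :
    x ∈ miss b T ↔ x ∉ T ∧ b x ≠ 0 := by
  simp [miss]

lemma card_miss {b : Fin n →₀ ℕ} (hb : ∀ x, b x ≤ 1) (T : Finset (Fin n)) :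
    (miss b T).card = ∑ x, (b - ind T) x := by
  rw [miss, Finset.card_filter]
  refine Finset.sum_congr rfl fun x _ => ?_
  rw [Finsupp.tsub_apply, ind_apply]
  have h := hb x
  by_cases h1 : x ∈ T
  · rw [if_pos h1, if_neg (fun h2 => h2.1 h1)]
    omega
  · rw [if_neg h1]
    by_cases h2 : b x = 0
    · rw [if_neg (fun h3 => h3.2 h2), h2]
    · rw [if_pos ⟨h1, h2⟩]
      omega

theorem lift_three (G : SimpleGraph (Fin n)) (p : ℤ) (b : Fin n →₀ ℕ) (i : ℕ)
    (hb : ∑ x, b x = i + 3) (v : Finset (Fin n) → ℤ)
    (hv : ∀ T, v T ≠ 0 → ind T ≤ b ∧ T.card = i + 2)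
    (hdiv : ∀ T, ¬ KK (P1 G) b T → p ∣ cd v T) :
    ∃ v' : Finset (Fin n) → ℤ, (∀ T, v' T ≠ 0 → ind T ≤ b ∧ T.card = i + 2) ∧
      (∀ T, p ∣ v T - v' T) ∧ ∀ T, ¬ KK (P1 G) b T → cd v' T = 0 := by
  classical
  have hone : ∀ T, v T ≠ 0 → ∑ x, (b - ind T) x = 1 := by
    intro T hT
    obtain ⟨h1, h2⟩ := hv T hT
    have h3 := sum_sub_ind h1
    omega
  by_cases hsq : ∀ x, b x ≤ 1
  · refine ⟨fun T => ∑ x ∈ miss b T, sg ℤ x T * ((sg ℤ x T * v T) % p), ?_, ?_, ?_⟩
    · intro T hT
      apply hv
      intro h
      apply hT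
      simp [h]
    · intro T
      by_cases hT : v T = 0
      · simp [hT]
      · have h1 := hone T hT
        rw [← card_miss hsq, Finset.card_eq_one] at h1
        obtain ⟨x, hx⟩ := h1
        simp only [hx, Finset.sum_singleton]
        have h2 : v T - sg ℤ x T * ((sg ℤ x T * v T) % p) =
            sg ℤ x T * (sg ℤ x T * v T - (sg ℤ x T * v T) % p) := by
          rw [mul_sub, ← mul_assoc, sg_mul_self, one_mul]
        rw [h2]
        exact (Int.dvd_self_sub_emod).mul_left _
    · intro S hS
      by_contra hne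
      obtain ⟨j, hj, hj2⟩ := Finset.exists_ne_zero_of_sum_ne_zero hne
      have hj' : j ∉ S := by simpa using hj
      have hjv : v (insert j S) ≠ 0 := by
        intro h
        apply hj2
        simp [h]
      obtain ⟨h1, h2⟩ := hv _ hjv
      have h3 : ind S ≤ b := by
        refine le_trans ?_ h1
        rw [ind_insert hj']
        exact le_self_add
      rw [card_insert_of_notMem hj'] at h2
      have h4 : ∑ x, (b - ind S) x = 2 := by
        have := sum_sub_ind h3
        omega
      rw [← card_miss hsq, Finset.card_eq_two] at h4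
      obtain ⟨x, y, hxy, hm⟩ := h4
      have hxm : x ∈ miss b S := by rw [hm]; simp
      have hym : y ∈ miss b S := by rw [hm]; simp
      rw [mem_miss] at hxm hym
      have key : ∀ a : Finset (Fin n) → ℤ, (∀ T, a T ≠ 0 → ind T ≤ b) →
          cd a S = sg ℤ x S * a (insert x S) + sg ℤ y S * a (insert y S) := by
        intro a ha
        rw [← Finset.sum_pair hxy (f := fun z => sg ℤ z S * a (insert z S))]
        unfold cd
        symm
        apply Finset.sum_subset
        · intro z hz
          rw [← hm, mem_miss] at hz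
          exact Finset.mem_compl.mpr hz.1
        · intro z hz hz'
          have h5 : a (insert z S) = 0 := by
            by_contra h6
            apply hz'
            rw [← hm, mem_miss]
            refine ⟨Finset.mem_compl.mp hz, ?_⟩
            have h7 := ha _ h6 z
            rw [ind_apply, if_pos (Finset.mem_insert_self _ _)] at h7
            omega
          rw [h5, mul_zero]
      have hmx : miss b (insert x S) = {y} := by
        ext z
        rw [mem_miss, Finset.mem_singleton, Finset.mem_insert, not_or]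
        constructor
        · rintro ⟨⟨h5, h6⟩, h7⟩
          have h8 : z ∈ miss b S := mem_miss.mpr ⟨h6, h7⟩
          rw [hm, Finset.mem_insert, Finset.mem_singleton] at h8
          exact h8.resolve_left h5
        · rintro rfl
          exact ⟨⟨hxy.symm, hym.1⟩, hym.2⟩
      have hmy : miss b (insert y S) = {x} := by
        ext z
        rw [mem_miss, Finset.mem_singleton, Finset.mem_insert, not_or]
        constructor
        · rintro ⟨⟨h5, h6⟩, h7⟩
          have h8 : z ∈ miss b S := mem_miss.mpr ⟨h6, h7⟩
          rw [hm, Finset.mem_insert, Finset.mem_singleton] at h8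
          exact h8.resolve_right h5
        · rintro rfl
          exact ⟨⟨hxy, hxm.1⟩, hxm.2⟩
      have hd := hdiv S hS
      rw [key v (fun T hT => (hv T hT).1)] at hd
      apply hne
      rw [key _ (fun T hT => by
        apply (hv T _).1
        intro h
        apply hT
        simp [h])]
      simp only [hmx, hmy, Finset.sum_singleton]
      have hsw := sg_swap (k := ℤ) hxy.symm hym.1 hxm.1
      set A := sg ℤ y (insert x S) * v (insert x S) with hA
      set B := sg ℤ x (insert y S) * v (insert y S) with hB
      have hvA : v (insert x S) = sg ℤ y (insert x S) * A := by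
        rw [hA, ← mul_assoc, sg_mul_self, one_mul]
      have hvB : v (insert y S) = sg ℤ x (insert y S) * B := by
        rw [hB, ← mul_assoc, sg_mul_self, one_mul]
      rw [hvA, hvB] at hd
      have h8 : sg ℤ x S * (sg ℤ y (insert x S) * A) + sg ℤ y S * (sg ℤ x (insert y S) * B) =
          sg ℤ x S * (sg ℤ y (insert x S) * (A - B)) := by
        linear_combination B * hsw
      rw [h8] at hd
      have h9 := dvd_of_dvd_sg_mul (dvd_of_dvd_sg_mul hd)
      have h10 : A % p = B % p := (Int.modEq_iff_dvd.mpr h9).symm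
      rw [h10]
      linear_combination (B % p) * hsw
  · push Not at hsq
    obtain ⟨x, hx⟩ := hsq
    refine ⟨fun _ => 0, fun T h => absurd rfl h, ?_, fun T _ => cd_zero T⟩
    intro T
    rw [sub_zero]
    by_cases hT : v T = 0
    · rw [hT]
      exact dvd_zero _
    · have h1 := hone T hT
      have h2 := (hv T hT).1
      have h3 : (b - ind T) x ≤ 1 := by
        rw [← h1]
        exact Finset.single_le_sum (f := fun x => (b - ind T) x) (fun _ _ => Nat.zero_le _)
          (Finset.mem_univ x)
      have hxT : x ∈ T := by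
        by_contra hxT
        rw [Finsupp.tsub_apply, ind_apply, if_neg hxT] at h3
        omega
      have h4 : (b - ind T) x = 1 := by
        rw [Finsupp.tsub_apply, ind_apply, if_pos hxT] at h3 ⊢
        omega
      have h5 : ∀ y, y ≠ x → (b - ind T) y = 0 := by
        intro y hy
        by_contra h6
        have h7 : (b - ind T) x + (b - ind T) y ≤ ∑ z, (b - ind T) z := by
          rw [← Finset.sum_pair hy.symm (f := fun z => (b - ind T) z)]
          exact Finset.sum_le_sum_of_subset (Finset.subset_univ _)
        omega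
      have hxS : x ∉ T.erase x := Finset.notMem_erase _ _
      have h6 : cd v (T.erase x) = sg ℤ x (T.erase x) * v T := by
        unfold cd
        rw [Finset.sum_eq_single x]
        · rw [Finset.insert_erase hxT]
        · intro j hj hjx
          have h7 : v (insert j (T.erase x)) = 0 := by
            by_contra h8
            have h9 := hone _ h8
            have h10 : (b - ind (insert j (T.erase x))) x ≤ 1 := by
              rw [← h9]
              exact Finset.single_le_sum (f := fun z => (b - ind (insert j (T.erase x))) z)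
                (fun _ _ => Nat.zero_le _) (Finset.mem_univ x)
            rw [Finsupp.tsub_apply, ind_apply, if_neg] at h10
            · omega
            · rw [Finset.mem_insert, not_or]
              exact ⟨fun h => hjx h.symm, hxS⟩
          rw [h7, mul_zero]
        · intro h
          exact absurd (Finset.mem_compl.mpr hxS) h
      have h7 : ¬ KK (P1 G) b (T.erase x) := by
        rintro ⟨-, a, c, hac, ha, hc⟩
        have h8 : ∀ y, (b - ind (T.erase x)) y ≠ 0 → y = x := by
          intro y hy
          by_contra hyx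
          apply hy
          have h9 := h5 y hyx
          rw [Finsupp.tsub_apply, ind_apply] at h9 ⊢
          simp only [Finset.mem_erase, ne_eq, hyx, not_false_eq_true, true_and]
          exact h9
        exact hac.ne ((h8 a ha).trans (h8 c hc).symm)
      have h8 := hdiv _ h7
      rw [h6] at h8
      exact dvd_of_dvd_sg_mul h8

/-! ### The transfer -/

theorem satS_P1 (G : SimpleGraph (Fin n)) (p : ℤ) (hp : p ≠ 0)
    (h : ∀ a i, SatS p (KK (P2 (cone G)) a) i) (b : Fin n →₀ ℕ) (i : ℕ) :
    SatS p (KK (P1 G) b) i := by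
  classical
  intro z w hw hzw
  have hdown := KK_down (P1_mono G) b
  -- supports
  have hz : ∀ T, z T ≠ 0 → KK (P1 G) b T ∧ T.card = i := by
    intro T hT
    have h1 : cd w T ≠ 0 := by
      rw [← hzw]
      exact mul_ne_zero hp hT
    obtain ⟨j, hj, hj2⟩ := Finset.exists_ne_zero_of_sum_ne_zero h1
    have hj' : j ∉ T := by simpa using hj
    have h3 : w (insert j T) ≠ 0 := fun h => hj2 (by rw [h, mul_zero])
    obtain ⟨h4, h5⟩ := hw _ h3
    rw [card_insert_of_notMem hj'] at h5
    exact ⟨hdown T j hj' h4, by omega⟩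
  have hcz : ∀ T, cd z T = 0 := by
    intro T
    have h1 : cd (fun T => p * z T) T = cd (cd w) T := by
      congr 1
      funext S
      exact hzw S
    rw [cd_cd, cd_smul] at h1
    exact (mul_eq_zero.mp h1).resolve_left hp
  by_cases hw0 : ∀ T, w T = 0
  · refine ⟨w, hw, fun T => ?_⟩
    have h1 := hzw T
    have h2 : cd w T = 0 := by
      unfold cd
      exact Finset.sum_eq_zero fun j _ => by rw [hw0, mul_zero]
    rw [h2] at h1 ⊢
    exact (mul_eq_zero.mp h1).resolve_left hp
  push Not at hw0
  obtain ⟨T0, hT0⟩ := hw0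
  obtain ⟨⟨hT0b, x0, y0, hxy0, hx0, hy0⟩, hT0c⟩ := hw T0 hT0
  have hbx0 : b x0 ≠ 0 := by
    intro h0
    apply hx0
    rw [Finsupp.tsub_apply, h0]
    exact Nat.zero_sub _
  -- the homotopy
  have hhv : ∀ (a : Finset (Fin n) → ℤ) (m : ℕ), (∀ T, a T ≠ 0 → ind T ≤ b ∧ T.card = m) →
      ∀ T, hv x0 a T ≠ 0 → ind T ≤ b ∧ T.card = m + 1 := by
    intro a m ha T hT
    unfold hv at hT
    split_ifs at hT with hx
    · have h1 : a (T.erase x0) ≠ 0 := fun h => hT (by rw [h, mul_zero])
      obtain ⟨h2, h3⟩ := ha _ h1
      refine ⟨?_, ?_⟩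
      · intro y
        have h4 := h2 y
        rw [ind_apply] at h4 ⊢
        by_cases hy : y = x0
        · subst hy
          rw [if_pos hx]
          omega
        · simpa [hy] using h4
      · rw [← h3, Finset.card_erase_add_one hx]
    · exact absurd rfl hT
  have hhcd : ∀ a : Finset (Fin n) → ℤ, (∀ T, cd a T = 0) → ∀ T, cd (hv x0 a) T = a T := by
    intro a ha T
    have h5 := homotopy x0 a T
    have h6 : hv x0 (cd a) T = 0 := by
      unfold hv
      split_ifs
      · rw [ha, mul_zero]
      · rfl
    rw [h6, add_zero] at h5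
    exact h5
  set u := hv x0 z with hu
  have hu1 : ∀ T, u T ≠ 0 → ind T ≤ b ∧ T.card = i + 1 :=
    hhv z i (fun T hT => ⟨(hz T hT).1.1, (hz T hT).2⟩)
  have hu2 : ∀ T, cd u T = z T := hhcd z hcz
  have hwu1 : ∀ T, (w T - p * u T) ≠ 0 → ind T ≤ b ∧ T.card = i + 1 := by
    intro T hT
    by_cases h1 : w T = 0
    · apply hu1
      intro h2
      apply hT
      rw [h1, h2, mul_zero, sub_zero]
    · exact ⟨(hw T h1).1.1, (hw T h1).2⟩
  have hwu2 : ∀ T, cd (fun T => w T - p * u T) T = 0 := by
    intro T
    rw [cd_sub, cd_smul, hu2, hzw, sub_self]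
  set v := hv x0 (fun T => w T - p * u T) with hvdef
  have hv1 : ∀ T, v T ≠ 0 → ind T ≤ b ∧ T.card = i + 2 := hhv _ (i + 1) hwu1
  have hv2 : ∀ T, cd v T = w T - p * u T := hhcd _ hwu2
  have hdeg : ∀ T m, ind T ≤ b → T.card = m → ∑ x, (b - ind T) x = ∑ x, b x - m := by
    intro T m h1 h2
    have := sum_sub_ind h1
    omega
  have hdeg0 : i + 3 ≤ ∑ x, b x := by
    have h1 := sum_sub_ind hT0b
    have h2 : (b - ind T0) x0 + (b - ind T0) y0 ≤ ∑ z, (b - ind T0) z := by
      rw [← Finset.sum_pair hxy0.ne (f := fun z => (b - ind T0) z)]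
      exact Finset.sum_le_sum_of_subset (Finset.subset_univ _)
    omega
  rcases Nat.lt_or_ge (i + 3) (∑ x, b x) with hlt | hge
  · -- coefficients of degree at least four
    obtain ⟨W', hW'1, hW'2⟩ := h (dbl b) (i + 1) (pair u (fun S => -(-1) ^ i * z S))
      (pair (fun S => - v S) (fun S => -(-1) ^ i * w S)) (by
        intro T hT
        unfold pair at hT
        split_ifs at hT with hl
        · have h1 : w (pre T) ≠ 0 := fun h => hT (by
            change -(-1) ^ i * w (pre T) = 0
            rw [h, mul_zero])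
          obtain ⟨h2, h3⟩ := hw _ h1
          refine ⟨(KK_mem hl).mpr ⟨h2, ?_⟩, ?_⟩
          · rw [hdeg _ _ h2.1 h3]
            omega
          · rw [← card_pre' hl, h3]
        · have h1 : v (pre T) ≠ 0 := fun h => hT (by
            change - v (pre T) = 0
            rw [h, neg_zero])
          obtain ⟨h2, h3⟩ := hv1 _ h1
          refine ⟨(KK_notMem hl).mpr ⟨h2, ?_⟩, ?_⟩
          · rw [hdeg _ _ h2 h3]
            omega
          · rw [← card_pre hl, h3]) (by
        intro T
        rw [cd_pair]
        unfold pair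
        split_ifs with hl
        · rw [cd_smul, ← hzw]
          ring
        · have h1 : cd (fun S => - v S) (pre T) = - (w (pre T) - p * u (pre T)) := by
            rw [← hv2]
            have h2 := cd_smul (-1 : ℤ) v (pre T)
            simpa using h2
          rw [h1]
          by_cases h2 : w (pre T) = 0
          · rw [h2]
            ring
          · rw [(hw _ h2).2]
            have h3 : ((-1 : ℤ)) ^ (i + 1) * (-(-1) ^ i * w (pre T)) = w (pre T) := by
              rw [pow_succ]
              have h4 : ((-1 : ℤ)) ^ i * (-1) ^ i = 1 := by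
                rw [← mul_pow]
                norm_num
              linear_combination (w (pre T)) * h4
            rw [h3]
            ring)
    have hsplit : ∀ T, W' T = pair (fun S => W' (up S)) (fun S => W' (insert (Fin.last n) (up S))) T := by
      intro T
      unfold pair
      split_ifs with hl
      · have h1 : insert (Fin.last n) (up (pre T)) = T := by
          have h2 : pre T = pre (T.erase (Fin.last n)) := by
            rw [← pre_insert_last (T.erase (Fin.last n)), Finset.insert_erase hl]
          rw [h2, up_pre (Finset.notMem_erase _ _), Finset.insert_erase hl]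
        change W' T = W' (insert (Fin.last n) (up (pre T)))
        rw [h1]
      · change W' T = W' (up (pre T))
        rw [up_pre hl]
    refine ⟨fun S => -(-1) ^ i * W' (insert (Fin.last n) (up S)), ?_, ?_⟩
    · intro S hS
      have h1 : W' (insert (Fin.last n) (up S)) ≠ 0 := fun h => hS (by
        change -(-1) ^ i * W' (insert (Fin.last n) (up S)) = 0
        rw [h, mul_zero])
      obtain ⟨h2, h3⟩ := hW'1 _ h1
      rw [KK_mem (Finset.mem_insert_self _ _), pre_insert_last, pre_up] at h2
      refine ⟨h2.1, ?_⟩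
      rw [← card_pre' (Finset.mem_insert_self _ _), pre_insert_last, pre_up] at h3
      omega
    · intro S
      have h1 := hW'2 (insert (Fin.last n) (up S))
      have h2 : W' = pair (fun S => W' (up S)) (fun S => W' (insert (Fin.last n) (up S))) :=
        funext hsplit
      rw [h2, cd_pair, if_pos (Finset.mem_insert_self _ _), pre_insert_last, pre_up] at h1
      unfold pair at h1
      rw [if_pos (Finset.mem_insert_self _ _), pre_insert_last, pre_up] at h1
      rw [cd_smul, ← h1]
      have h4 : ((-1 : ℤ)) ^ i * (-1) ^ i = 1 := by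
        rw [← mul_pow]
        norm_num
      linear_combination -(z S) * h4
  · -- coefficients of degree three
    have hb3 : ∑ x, b x = i + 3 := le_antisymm hge hdeg0
    obtain ⟨v', hv'1, hv'2, hv'3⟩ := lift_three G p b i hb3 v hv1 (by
      intro T hT
      rw [hv2]
      have h1 : w T = 0 := by
        by_contra h1
        exact hT (hw T h1).1
      rw [h1, zero_sub, dvd_neg]
      exact dvd_mul_right _ _)
    choose q hq using hv'2
    have hvq : ∀ T, v T = v' T + p * q T := fun T => by
      have := hq T
      omega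
    have hcd : ∀ T, w T - p * u T = cd v' T + p * cd q T := by
      intro T
      rw [← hv2, ← cd_smul, ← cd_add]
      congr 1
      funext S
      exact hvq S
    have hq1 : ∀ T, q T ≠ 0 → ind T ≤ b ∧ T.card = i + 2 := by
      intro T hT
      by_cases h1 : v T = 0
      · apply hv'1
        intro h2
        have h3 := hq T
        rw [h1, h2, sub_zero] at h3
        exact hT ((mul_eq_zero.mp h3.symm).resolve_left hp)
      · exact hv1 T h1
    refine ⟨fun T => u T + cd q T, ?_, ?_⟩
    · intro T hT
      have hlev : T.card = i + 1 := by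
        by_cases h1 : u T = 0
        · have h2 : cd q T ≠ 0 := by
            intro h2
            apply hT
            change u T + cd q T = 0
            rw [h1, h2, add_zero]
          obtain ⟨j, hj, hj2⟩ := Finset.exists_ne_zero_of_sum_ne_zero h2
          have hj' : j ∉ T := by simpa using hj
          have h3 : q (insert j T) ≠ 0 := fun h => hj2 (by rw [h, mul_zero])
          have h5 := (hq1 _ h3).2
          rw [card_insert_of_notMem hj'] at h5
          omega
        · exact (hu1 T h1).2
      refine ⟨?_, hlev⟩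
      by_contra hQ
      apply hT
      have h1 : w T = 0 := by
        by_contra h1
        exact hQ (hw T h1).1
      have h2 := hcd T
      rw [h1, hv'3 T hQ] at h2
      have h3 : p * (u T + cd q T) = 0 := by linear_combination -h2
      exact (mul_eq_zero.mp h3).resolve_left hp
    · intro T
      rw [cd_add, cd_cd, add_zero, hu2]

/-! ### The theorem -/

/-- If the square of the edge ideal of the cone has the same graded Betti numbers over `K` and
over `ℚ`, then so has the edge ideal of the graph. -/
theorem main (G : SimpleGraph (Fin n)) (K : Type*) [Field K]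
    (h : ∀ i e, gbetti (edgeIdeal K (cone G) ^ 2) i e = gbetti (edgeIdeal ℚ (cone G) ^ 2) i e)
    (i e : ℕ) : gbetti (edgeIdeal K G) i e = gbetti (edgeIdeal ℚ G) i e := by
  obtain ⟨p, hp⟩ := CharP.exists K
  rcases CharP.char_is_prime_or_zero K p with hp' | hp'
  · have : Fact p.Prime := ⟨hp'⟩
    refine gbetti_eq_of_satS (mem_edge_iff K G) (mem_edge_iff ℚ G) (P1_mono G) p ?_ i e
    apply satS_P1 G (p : ℤ) (by exact_mod_cast hp'.ne_zero)
    intro a j
    by_cases hj : j ≤ ∑ v, a v
    · exact satS_of_gbetti_eq (mem_sq_iff K (cone G)) (mem_sq_iff ℚ (cone G)) (P2_mono (cone G)) p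
        (h j (∑ v, a v - j)) a (by omega)
    · intro z w hw hzw
      have hw0 : ∀ T, w T = 0 := by
        intro T
        by_contra hT
        obtain ⟨h1, h2⟩ := hw T hT
        have h3 := sum_sub_ind h1.1
        omega
      refine ⟨w, hw, fun T => ?_⟩
      have h1 := hzw T
      have h2 : cd w T = 0 := by
        unfold cd
        exact Finset.sum_eq_zero fun j _ => by rw [hw0, mul_zero]
      rw [h2] at h1 ⊢
      exact (mul_eq_zero.mp h1).resolve_left (by exact_mod_cast hp'.ne_zero)
  · subst hp'
    have : CharZero K := CharP.charP_to_charZero K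
    exact gbetti_charZero (mem_edge_iff K G) (mem_edge_iff ℚ G) (P1_mono G) i e

/-- **Field-dependence of the Betti numbers of `I(G)` implies that of the Betti numbers of the
square `J^2` of the edge ideal of the cone over `G`**, for every graph `G`. Moreover, if the graded
Betti numbers of `I(G)` over a field `K` differ from those over `ℚ`, then so do those of `J^2`, some
of them being strictly larger over `K`. -/
theorem result (n : ℕ) (G : SimpleGraph (Fin n)) :
    ((∃ (K K' : Type) (_ : Field K) (_ : Field K') (i e : ℕ),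
        gbetti (edgeIdeal K G) i e ≠ gbetti (edgeIdeal K' G) i e) →
      ∃ (K K' : Type) (_ : Field K) (_ : Field K') (i e : ℕ),
        gbetti (edgeIdeal K (cone G) ^ 2) i e ≠ gbetti (edgeIdeal K' (cone G) ^ 2) i e) ∧
    ∀ (K : Type) [Field K],
      (∃ i e : ℕ, gbetti (edgeIdeal K G) i e ≠ gbetti (edgeIdeal ℚ G) i e) →
      ∃ i e : ℕ, gbetti (edgeIdeal ℚ (cone G) ^ 2) i e < gbetti (edgeIdeal K (cone G) ^ 2) i e := by
  have key : ∀ (K : Type) [Field K],
      (∃ i e : ℕ, gbetti (edgeIdeal K G) i e ≠ gbetti (edgeIdeal ℚ G) i e) →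
      ∃ i e : ℕ, gbetti (edgeIdeal ℚ (cone G) ^ 2) i e <
        gbetti (edgeIdeal K (cone G) ^ 2) i e := by
    intro K _ h
    by_contra hcon
    push Not at hcon
    obtain ⟨i, e, hie⟩ := h
    refine hie (main G K (fun i e => le_antisymm (hcon i e) ?_) i e)
    exact gbetti_rat_le (mem_sq_iff K (cone G)) (mem_sq_iff ℚ (cone G)) (P2_mono (cone G)) i e
  refine ⟨?_, key⟩
  rintro ⟨K, K', _, _, i, e, h⟩
  by_cases h1 : gbetti (edgeIdeal K G) i e = gbetti (edgeIdeal ℚ G) i e
  · obtain ⟨i', e', h2⟩ := key K' ⟨i, e, fun h2 => h (h1.trans h2.symm)⟩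
    exact ⟨ℚ, K', _, _, i', e', h2.ne⟩
  · obtain ⟨i', e', h2⟩ := key K ⟨i, e, h1⟩
    exact ⟨ℚ, K, _, _, i', e', h2.ne⟩

end Pool.Agent.Results.MP_01886a_al.ConeSquare
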